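import Pool.Agent.H68.TG.Targets

/-!
# De Mol's tag system: row CTB (the exceptions below a power of two)
-/

set_option autoImplicit false

open List Pool.Agent.H68.TG

namespace Pool.Agent.H10.TG

theorem red_mono {w : List (Fin 3)} {L L' : ℝ} (h : Red w L) (hL : L ≤ L') : Red w L' := by
  obtain ⟨k, h1, h2⟩ := h
  exact ⟨k, h1, h2.trans hL⟩

theorem ph_nonneg (k : Bool) (B : List (Bool × ℕ)) : 0 ≤ ph k B := by
  induction B with
  | nil => simp [ph]
  | cons b B ih =>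
    rw [ph]
    split_ifs
    · exact add_nonneg (Real.sqrt_nonneg _) ih
    · simpa using ih

theorem ph_one (k : Bool) (V : List Bool) : ph k (one V) ≤ V.length := by
  induction V with
  | nil => simp [one, ph]
  | cons b V ih =>
    have h1 : one (b :: V) = (b, 1) :: one V := rfl
    rw [h1, ph]
    have h2 : (((b :: V).length : ℕ) : ℝ) = 1 + (V.length : ℝ) := by
      simp; ring
    rw [h2]
    split_ifs
    · have : Real.sqrt ((1 : ℕ) : ℝ) = 1 := by simp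
      rw [this]; linarith
    · linarith

/-- constants -/
theorem c1 : (399 / 200 : ℝ) ≤ (2 : ℝ) ^ (299 / 300 : ℝ) := by
  have h0 : (0 : ℝ) ≤ (2 : ℝ) ^ (299 / 300 : ℝ) := by positivity
  refine le_of_pow_le_pow_left₀ (n := 300) (by norm_num) h0 ?_
  have h1 : ((2 : ℝ) ^ (299 / 300 : ℝ)) ^ 300 = 2 ^ 299 := by
    rw [← Real.rpow_natCast ((2 : ℝ) ^ (299 / 300 : ℝ)) 300, ← Real.rpow_mul (by norm_num)]
    have : (299 / 300 : ℝ) * ((300 : ℕ) : ℝ) = ((299 : ℕ) : ℝ) := by norm_num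
    rw [this, Real.rpow_natCast]
  rw [h1, show (300 : ℕ) = 150 + 150 from rfl, show (299 : ℕ) = 150 + 149 from rfl, pow_add, pow_add]
  norm_num

theorem c3 : (97 / 100 : ℝ) * (2 : ℝ) ^ (13 / 300 : ℝ) ≤ 1 := by
  have h0 : (0 : ℝ) ≤ (97 / 100 : ℝ) * (2 : ℝ) ^ (13 / 300 : ℝ) := by positivity
  refine le_of_pow_le_pow_left₀ (n := 300) (by norm_num) (by norm_num) ?_
  have h1 : ((2 : ℝ) ^ (13 / 300 : ℝ)) ^ 300 = 2 ^ 13 := by
    rw [← Real.rpow_natCast ((2 : ℝ) ^ (13 / 300 : ℝ)) 300, ← Real.rpow_mul (by norm_num)]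
    have : (13 / 300 : ℝ) * ((300 : ℕ) : ℝ) = ((13 : ℕ) : ℝ) := by norm_num
    rw [this, Real.rpow_natCast]
  rw [mul_pow, h1, show (300 : ℕ) = 150 + 150 from rfl, pow_add]
  norm_num

theorem pf_CTB (h1 : T_CNT) (h2 : T_MAB) (h3 : T_MDB) (h4 : T_MXB) (h5 : T_GOO) : T_CTB := by
  classical
  intro s m r V n hm hm3 hr3
  set A : ℝ := ((2 : ℝ) ^ (1 / 10 : ℝ)) ^ n with hA
  set Bb : ℝ := ((2 : ℝ) ^ (23 / 50 : ℝ)) ^ n with hBb
  set c : ℝ := (2 : ℝ) ^ (299 / 300 : ℝ) with hc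
  have hA0 : 0 < A := by positivity
  have hB0 : 0 < Bb := by positivity
  have hc0 : 0 < c := by positivity
  have hN : (2 : ℝ) ^ ((299 / 300 : ℝ) * n) = c ^ n := by
    rw [hc, ← Real.rpow_natCast, ← Real.rpow_mul (by norm_num)]
  have hB2 : Bb ^ 2 = (2 : ℝ) ^ ((23 / 25 : ℝ) * n) := by
    rw [hBb, ← pow_mul, ← Real.rpow_natCast, ← Real.rpow_mul (by norm_num)]
    congr 1
    push_cast
    ring
  have hA2 : A ^ 2 ≤ Bb ^ 2 := by
    refine pow_le_pow_left₀ hA0.le ?_ 2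
    refine pow_le_pow_left₀ (by positivity) ?_ n
    exact Real.rpow_le_rpow_of_exponent_le (by norm_num) (by norm_num)
  have hB1 : 1 ≤ Bb ^ 2 := by
    rw [hB2]
    exact Real.one_le_rpow (by norm_num) (by positivity)
  let X : ℝ := 3 * 2 ^ n
  have hX0 : 0 ≤ X := by positivity
  let f : St → ℝ := fun z => ph false z.2.2 + ph true z.2.2 / A + Real.sqrt z.2.1 / Bb
  let z : ℕ → St := fun i => drive n (s, m * i + r, one V) X
  have hf0 : ∀ y, 0 ≤ f y := fun y =>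
    add_nonneg (add_nonneg (ph_nonneg _ _) (div_nonneg (ph_nonneg _ _) hA0.le))
      (div_nonneg (Real.sqrt_nonneg _) hB0.le)
  let E : Finset ℕ := (Finset.range (2 ^ n)).filter fun i =>
    ¬ Red (tape (cfg (s, m * i + r, one V))) (4 * (2 : ℝ) ^ ((23 / 25 : ℝ) * n))
  have hE : {i : ℕ | i < 2 ^ n ∧
      ¬ Red (tape (cfg (s, m * i + r, one V))) (4 * (2 : ℝ) ^ ((23 / 25 : ℝ) * n))} =
      (E : Set ℕ) := by
    ext i
    simp only [E, Finset.coe_filter, Finset.mem_range, Set.mem_setOf_eq]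
  rw [hE, Set.ncard_coe_finset]
  have hge : ∀ i ∈ E, 1 ≤ f (z i) := by
    intro i hi
    rw [Finset.mem_filter, Finset.mem_range] at hi
    obtain ⟨hi1, hi2⟩ := hi
    by_contra hlt
    push Not at hlt
    apply hi2
    have e1 := ph_nonneg false (z i).2.2
    have e2 := div_nonneg (ph_nonneg true (z i).2.2) hA0.le
    have e3 := div_nonneg (Real.sqrt_nonneg (z i).2.1) hB0.le
    have hfz : ph false (z i).2.2 + ph true (z i).2.2 / A + Real.sqrt (z i).2.1 / Bb < 1 := hlt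
    have g1 : ph false (z i).2.2 < 1 := by linarith
    have g2 : ph true (z i).2.2 / A ≤ 1 := by linarith
    have g3 : Real.sqrt (z i).2.1 / Bb ≤ 1 := by linarith
    rw [div_le_one hA0] at g2
    rw [div_le_one hB0] at g3
    have hX : (((s, m * i + r, one V) : Bool × ℕ × List (Bool × ℕ)).2.1 : ℝ) ≤ X := by
      show ((m * i + r : ℕ) : ℝ) ≤ 3 * 2 ^ n
      have e4 : m * i + r ≤ 3 * 2 ^ n := by
        have : i + 1 ≤ 2 ^ n := hi1
        calc m * i + r ≤ 3 * i + 3 := Nat.add_le_add (Nat.mul_le_mul_right _ hm3) hr3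
          _ = 3 * (i + 1) := by ring
          _ ≤ 3 * 2 ^ n := Nat.mul_le_mul_left _ this
      exact_mod_cast e4
    refine red_mono (h5 n (s, m * i + r, one V) X A Bb hX g1 g2 g3) ?_
    rw [← hB2]
    linarith
  have hsum : (E.card : ℝ) ≤ ∑ i ∈ Finset.range (2 ^ n), f (z i) := by
    calc (E.card : ℝ) = ∑ _i ∈ E, (1 : ℝ) := by simp
      _ ≤ ∑ i ∈ E, f (z i) := Finset.sum_le_sum hge
      _ ≤ _ := Finset.sum_le_sum_of_subset_of_nonneg (Finset.filter_subset _ _)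
          (fun i _ _ => hf0 _)
  have hsplit : ∑ i ∈ Finset.range (2 ^ n), f (z i) =
      tot (fun z => ph false z.2.2) n (s, X, one V) + tot (fun z => ph true z.2.2) n (s, X, one V) / A
        + tot (fun z => Real.sqrt z.2.1) n (s, X, one V) / Bb := by
    rw [← h1 _ n m r s (one V) X hm, ← h1 _ n m r s (one V) X hm, ← h1 _ n m r s (one V) X hm,
      Finset.sum_div, Finset.sum_div, ← Finset.sum_add_distrib, ← Finset.sum_add_distrib]
  have hV : (0 : ℝ) ≤ V.length := Nat.cast_nonneg _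
  -- the three sums
  have b1 : tot (fun z => ph false z.2.2) n (s, X, one V) ≤ c ^ n * V.length := by
    refine (h2 n (s, X, one V)).trans ?_
    exact mul_le_mul (pow_le_pow_left₀ (by norm_num) c1 n) (ph_one _ _) (ph_nonneg _ _)
      (by positivity)
  have b2 : tot (fun z => ph true z.2.2) n (s, X, one V) / A ≤ c ^ n * V.length := by
    rw [div_le_iff₀ hA0]
    refine (h3 n (s, X, one V)).trans ?_
    have e1 : (2 : ℝ) ≤ c * (2 : ℝ) ^ (1 / 10 : ℝ) := by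
      rw [hc, ← Real.rpow_add (by norm_num)]
      calc (2 : ℝ) = (2 : ℝ) ^ (1 : ℝ) := (Real.rpow_one 2).symm
        _ ≤ _ := Real.rpow_le_rpow_of_exponent_le (by norm_num) (by norm_num)
    calc (2 : ℝ) ^ n * ph true (one V) ≤ (c * (2 : ℝ) ^ (1 / 10 : ℝ)) ^ n * V.length :=
          mul_le_mul (pow_le_pow_left₀ (by norm_num) e1 n) (ph_one _ _) (ph_nonneg _ _)
            (by positivity)
      _ = _ := by rw [mul_pow]; ring
  have b3 : tot (fun z => Real.sqrt z.2.1) n (s, X, one V) / Bb ≤ 35 * c ^ n := by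
    rw [div_le_iff₀ hB0]
    refine (h4 n (s, X, one V) hX0).trans ?_
    have e1 : (2 : ℝ) ≤ c * (2 : ℝ) ^ (23 / 50 : ℝ) := by
      rw [hc, ← Real.rpow_add (by norm_num)]
      calc (2 : ℝ) = (2 : ℝ) ^ (1 : ℝ) := (Real.rpow_one 2).symm
        _ ≤ _ := Real.rpow_le_rpow_of_exponent_le (by norm_num) (by norm_num)
    have e2 : Real.sqrt X ≤ 2 * (Real.sqrt 2) ^ n := by
      rw [Real.sqrt_le_iff]
      refine ⟨by positivity, ?_⟩
      rw [mul_pow, ← pow_mul, mul_comm n 2, pow_mul, Real.sq_sqrt (by norm_num)]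
      have : (0 : ℝ) ≤ 2 ^ n := by positivity
      show 3 * (2 : ℝ) ^ n ≤ 2 ^ 2 * 2 ^ n
      linarith
    have e3 : 2 * (97 / 100 * Real.sqrt 2) ≤ c * (2 : ℝ) ^ (23 / 50 : ℝ) := by
      have f1 : c * (2 : ℝ) ^ (23 / 50 : ℝ) = (2 : ℝ) ^ (437 / 300 : ℝ) := by
        rw [hc, ← Real.rpow_add (by norm_num)]
        norm_num
      have f2 : 2 * (97 / 100 * Real.sqrt 2) =
          (97 / 100 * (2 : ℝ) ^ (13 / 300 : ℝ)) * (2 : ℝ) ^ (437 / 300 : ℝ) := by
        rw [mul_assoc, ← Real.rpow_add (by norm_num), Real.sqrt_eq_rpow]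
        have : (2 : ℝ) ^ ((13 / 300 : ℝ) + 437 / 300) = 2 * (2 : ℝ) ^ (1 / 2 : ℝ) := by
          rw [show ((13 / 300 : ℝ) + 437 / 300) = 1 + 1 / 2 by norm_num,
            Real.rpow_add (by norm_num), Real.rpow_one]
        rw [this]
        ring
      rw [f1, f2]
      have : (0 : ℝ) ≤ (2 : ℝ) ^ (437 / 300 : ℝ) := by positivity
      nlinarith [c3]
    have e4 : (2 : ℝ) ^ n * ((97 / 100) ^ n * Real.sqrt X + 33) ≤
        2 * (2 * (97 / 100 * Real.sqrt 2)) ^ n + 33 * 2 ^ n := by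
      have f1 : (97 / 100 : ℝ) ^ n * Real.sqrt X ≤ (97 / 100) ^ n * (2 * (Real.sqrt 2) ^ n) :=
        mul_le_mul_of_nonneg_left e2 (by positivity)
      calc (2 : ℝ) ^ n * ((97 / 100) ^ n * Real.sqrt X + 33)
          ≤ 2 ^ n * ((97 / 100) ^ n * (2 * (Real.sqrt 2) ^ n) + 33) :=
            mul_le_mul_of_nonneg_left (by linarith) (by positivity)
        _ = _ := by rw [mul_pow, mul_pow]; ring
    refine e4.trans ?_
    have g1 : (2 * (97 / 100 * Real.sqrt 2)) ^ n ≤ (c * (2 : ℝ) ^ (23 / 50 : ℝ)) ^ n :=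
      pow_le_pow_left₀ (by positivity) e3 n
    have g2 : (2 : ℝ) ^ n ≤ (c * (2 : ℝ) ^ (23 / 50 : ℝ)) ^ n :=
      pow_le_pow_left₀ (by norm_num) e1 n
    have g3 : (c * (2 : ℝ) ^ (23 / 50 : ℝ)) ^ n = c ^ n * Bb := by rw [mul_pow]
    rw [g3] at g1 g2
    linarith
  rw [hN]
  have hcn : 0 ≤ c ^ n := by positivity
  calc (E.card : ℝ) ≤ _ := hsum
    _ ≤ c ^ n * V.length + c ^ n * V.length + 35 * c ^ n := by rw [hsplit]; linarith
    _ ≤ (2 * V.length + 36) * c ^ n := by nlinarith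

end Pool.Agent.H10.TG
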