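import Pool.Agent.H68.TG.Targets

/-!
# De Mol's tag system: row DBL (the double pass)
-/

set_option autoImplicit false

open List Pool.Agent.H68.TG

namespace Pool.Agent.H10.TG

theorem bodd_t3 (s : Bool) (u : ℕ) : (t3 s u).bodd = u.bodd := by
  cases s <;> simp [t3, Nat.bodd_mul]

theorem pf_DBL (h : T_RDB) : T_DBL := by
  obtain ⟨-, -, -, -, h5, h6, h7, -, -⟩ := h
  have hst : ∀ (B : List (Bool × ℕ)) (a : Bool), st a (flat B) = xor a (pa false B) := by
    intro B
    induction B with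
    | nil => intro a; simp [flat, st, pa]
    | cons b B ih =>
      intro a
      obtain ⟨k, u⟩ := b
      rw [flat, (h5 _ _ _).2]
      cases k
      · rw [(h7 _ _).2, ih]
        simp [pa]
      · rw [(h6 _ _).2, ih]
        simp [pa]
  have htr : ∀ (B : List (Bool × ℕ)) (a b : Bool), tr b (tr a (flat B)) = flat (dbl a b B) := by
    intro B
    induction B with
    | nil => intro a b; simp [flat, tr, dbl]
    | cons c B ih =>
      intro a b
      obtain ⟨k, u⟩ := c
      rw [flat, (h5 _ _ _).1]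
      cases k
      · rw [(h7 _ _).1, (h7 _ _).2, (h5 _ _ _).1, (h6 _ _).1, (h6 _ _).2, ih, dbl, flat]
      · rw [(h6 _ _).1, (h6 _ _).2, (h5 _ _ _).1, (h7 _ _).1, (h7 _ _).2, bodd_t3, ih, dbl, flat]
  have hen : ∀ (B : List (Bool × ℕ)) (a b : Bool), st b (tr a (flat B)) = xor b (pa true B) := by
    intro B
    induction B with
    | nil => intro a b; simp [flat, tr, st, pa]
    | cons c B ih =>
      intro a b
      obtain ⟨k, u⟩ := c
      rw [flat, (h5 _ _ _).1]
      cases k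
      · rw [(h7 _ _).1, (h7 _ _).2, (h5 _ _ _).2, (h6 _ _).2, ih]
        simp [pa]
      · rw [(h6 _ _).1, (h6 _ _).2, (h5 _ _ _).2, (h7 _ _).2, bodd_t3, ih]
        simp [pa]
  rintro ⟨s, x, B⟩
  simp only [cfg, Pool.Agent.H68.TG.pass, nx, s1, s2]
  rw [(h5 _ _ _).2, (h5 _ _ _).1, (h7 _ _).2, (h7 _ _).1, hst, (h5 _ _ _).1, (h5 _ _ _).2,
    (h6 _ _).2, (h6 _ _).1, htr, hen]

end Pool.Agent.H10.TG
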