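import Pool.Agent.H68.TG.Targets

/-!
# De Mol's tag system: row FND (the words `p (12)^n v`)
-/

set_option autoImplicit false

open List Pool.Agent.H68.TG

namespace Pool.Agent.H10.TG

theorem red_step {w : List (Fin 3)} {L : ℝ} (k : ℕ) (h : Red (step^[k] w) L) : Red w L := by
  obtain ⟨j, h1, h2⟩ := h
  refine ⟨j + k, ?_, ?_⟩
  · rw [Function.iterate_add_apply]; exact h1
  · rw [Function.iterate_add_apply]; exact h2

theorem red_le {w : List (Fin 3)} {L L' : ℝ} (h : Red w L) (hL : L ≤ L') : Red w L' := by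
  obtain ⟨k, h1, h2⟩ := h
  exact ⟨k, h1, h2.trans hL⟩

theorem ncard_lt_le (N : ℕ) (P : ℕ → Prop) : {n : ℕ | n < N ∧ P n}.ncard ≤ N := by
  calc {n : ℕ | n < N ∧ P n}.ncard ≤ (Finset.range N : Set ℕ).ncard := by
        refine Set.ncard_le_ncard ?_ (Finset.finite_toSet _)
        intro n hn
        simp only [Finset.coe_range, Set.mem_Iio]
        exact hn.1
    _ = N := by rw [Set.ncard_coe_finset, Finset.card_range]

theorem small_N {N : ℕ} (h1 : 1 ≤ N) (h2 : N < 2 ^ 100) :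
    (N : ℝ) ≤ 2 * (N : ℝ) ^ (299 / 300 : ℝ) := by
  have h0 : (0 : ℝ) < N := by exact_mod_cast h1
  have e1 : (N : ℝ) = (N : ℝ) ^ (1 / 300 : ℝ) * (N : ℝ) ^ (299 / 300 : ℝ) := by
    rw [← Real.rpow_add h0]
    norm_num
  have e2 : (N : ℝ) ^ (1 / 300 : ℝ) ≤ 2 := by
    have f1 : (N : ℝ) ≤ (2 : ℝ) ^ (100 : ℝ) := by
      have : (N : ℝ) ≤ ((2 ^ 100 : ℕ) : ℝ) := by exact_mod_cast h2.le
      refine this.trans (le_of_eq ?_)
      rw [show (100 : ℝ) = ((100 : ℕ) : ℝ) by norm_num, Real.rpow_natCast]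
      norm_num
    calc (N : ℝ) ^ (1 / 300 : ℝ) ≤ ((2 : ℝ) ^ (100 : ℝ)) ^ (1 / 300 : ℝ) :=
          Real.rpow_le_rpow h0.le f1 (by norm_num)
      _ = (2 : ℝ) ^ (1 / 3 : ℝ) := by
          rw [← Real.rpow_mul (by norm_num)]
          norm_num
      _ ≤ (2 : ℝ) ^ (1 : ℝ) := Real.rpow_le_rpow_of_exponent_le (by norm_num) (by norm_num)
      _ = 2 := Real.rpow_one 2
  calc (N : ℝ) = (N : ℝ) ^ (1 / 300 : ℝ) * (N : ℝ) ^ (299 / 300 : ℝ) := e1
    _ ≤ 2 * (N : ℝ) ^ (299 / 300 : ℝ) := mul_le_mul_of_nonneg_right e2 (by positivity)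

theorem large_N {N : ℕ} (h : 2 ^ 100 ≤ N) :
    8 * (N : ℝ) ^ (23 / 25 : ℝ) ≤ (N : ℝ) ^ (19 / 20 : ℝ) := by
  have h0 : (0 : ℝ) < N := by
    have : 0 < N := lt_of_lt_of_le (by positivity) h
    exact_mod_cast this
  have f1 : (2 : ℝ) ^ (100 : ℝ) ≤ (N : ℝ) := by
    have : ((2 ^ 100 : ℕ) : ℝ) ≤ (N : ℝ) := by exact_mod_cast h
    refine (le_of_eq ?_).trans this
    rw [show (100 : ℝ) = ((100 : ℕ) : ℝ) by norm_num, Real.rpow_natCast]
    norm_num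
  have e1 : (8 : ℝ) ≤ (N : ℝ) ^ (3 / 100 : ℝ) := by
    calc (8 : ℝ) = ((2 : ℝ) ^ (100 : ℝ)) ^ (3 / 100 : ℝ) := by
          rw [← Real.rpow_mul (by norm_num)]
          rw [show (100 : ℝ) * (3 / 100) = ((3 : ℕ) : ℝ) by norm_num, Real.rpow_natCast]
          norm_num
      _ ≤ _ := Real.rpow_le_rpow (by positivity) f1 (by norm_num)
  calc 8 * (N : ℝ) ^ (23 / 25 : ℝ) ≤ (N : ℝ) ^ (3 / 100 : ℝ) * (N : ℝ) ^ (23 / 25 : ℝ) :=
        mul_le_mul_of_nonneg_right e1 (by positivity)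
    _ = (N : ℝ) ^ (19 / 20 : ℝ) := by
        rw [← Real.rpow_add h0]
        norm_num

theorem pf_FND (h1 : T_NDF) (h2 : T_CTN) (h3 : T_SHW) : T_FND := by
  intro p v N
  have hpv : (0 : ℝ) ≤ (p.length : ℝ) + v.length := by positivity
  rcases Nat.eq_zero_or_pos N with rfl | hN
  · have : {n : ℕ | n < 0 ∧ ¬ Red (p ++ dd n ++ v) (((0 : ℕ) : ℝ) ^ (19 / 20 : ℝ))} = ∅ := by
      ext n
      simp
    rw [this, Set.ncard_empty, Nat.cast_zero, Real.zero_rpow (by norm_num), mul_zero]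
  have hNR : (1 : ℝ) ≤ N := by exact_mod_cast hN
  have hpos : 0 ≤ (N : ℝ) ^ (299 / 300 : ℝ) := by positivity
  rcases Nat.lt_or_ge N (2 ^ 100) with hlt | hge
  · have e1 : ((({n : ℕ | n < N ∧ ¬ Red (p ++ dd n ++ v) ((N : ℝ) ^ (19 / 20 : ℝ))}.ncard : ℕ) : ℝ))
        ≤ N := by exact_mod_cast ncard_lt_le N _
    have e2 := small_N hN hlt
    nlinarith
  · obtain ⟨s, m, r, V, hm, hm3, hr3, hV, hk⟩ := h1 p v
    have e1 := h2 s m r V N hm hm3 hr3 hN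
    have hsub : {n : ℕ | n < N ∧ ¬ Red (p ++ dd n ++ v) ((N : ℝ) ^ (19 / 20 : ℝ))} ⊆
        {i : ℕ | i < N ∧ ¬ Red (tape (cfg (s, m * i + r, one V))) (8 * (N : ℝ) ^ (23 / 25 : ℝ))} := by
      intro n hn
      refine ⟨hn.1, ?_⟩
      intro hred
      apply hn.2
      obtain ⟨k, hk1 | hk1⟩ := hk n
      · refine red_step k ?_
        rw [hk1]
        exact red_le hred (large_N hge)
      · refine red_step k (red_le (h3 _ hk1) ?_)
        exact Real.one_le_rpow hNR (by norm_num)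
    have hfin : {i : ℕ | i < N ∧ ¬ Red (tape (cfg (s, m * i + r, one V)))
        (8 * (N : ℝ) ^ (23 / 25 : ℝ))}.Finite :=
      Set.Finite.subset (Set.finite_lt_nat N) (fun i hi => hi.1)
    have e2 : ((({n : ℕ | n < N ∧ ¬ Red (p ++ dd n ++ v) ((N : ℝ) ^ (19 / 20 : ℝ))}.ncard : ℕ) : ℝ))
        ≤ (({i : ℕ | i < N ∧ ¬ Red (tape (cfg (s, m * i + r, one V)))
          (8 * (N : ℝ) ^ (23 / 25 : ℝ))}.ncard : ℕ) : ℝ) := by
      exact_mod_cast Set.ncard_le_ncard hsub hfin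
    have e3 : (V.length : ℝ) ≤ 27 * ((p.length : ℝ) + v.length) := by exact_mod_cast hV
    nlinarith

end Pool.Agent.H10.TG
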