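import Pool.Agent.H68.TG.Targets

/-!
# De Mol's tag system: row INV (stopping is invariant)
-/

set_option autoImplicit false

open List Pool.Agent.H68.TG

namespace Pool.Agent.H10.TG

theorem pf_INV : T_INV := by
  intro w
  constructor
  · rintro ⟨n, hn⟩
    rcases n with _ | n
    · have hw : w.length < 2 := hn
      rcases w with _ | ⟨c, _ | ⟨d, w⟩⟩
      · exact ⟨0, by decide⟩
      · have h : ∀ c : Fin 3, ∃ k ≤ 40, (step^[k] (step [c])).length < 2 := by
          intro c
          fin_cases c
          · exact ⟨1, by decide, by decide⟩
          · exact ⟨0, by decide, by decide⟩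
          · exact ⟨24, by decide, by decide⟩
        obtain ⟨k, _, hk⟩ := h c
        exact ⟨k, hk⟩
      · simp only [List.length_cons] at hw
        omega
    · exact ⟨n, by rw [Function.iterate_succ_apply] at hn; exact hn⟩
  · rintro ⟨n, hn⟩
    exact ⟨n + 1, by rw [Function.iterate_succ_apply]; exact hn⟩

end Pool.Agent.H10.TG
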