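import Pool.Agent.H15.TG.Targets
import Pool.Agent.H2.ST.Basic2

/-!
Row RFC of the board `tga_modules`: divisibility of `phi s` by `f - c`.
-/

set_option autoImplicit false

namespace Pool.Agent.H10.TGA

open MvPolynomial Pool.Agent.H2.ST Pool.Agent.H15.TG

section basics

variable {k : Type} [Field k] {m d : ℕ} {W : (Fin d → ℤ) → Submodule k (Pol k m)}
  {K : Subalgebra k (Pol k m)} {f : Pol k m} {π : Fin (d + 1) → Pol k m}
  {ψ : Fin (d + 1) → Fin d → ℤ} {a : Fin (d + 1) → ℕ} {c0 : k}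

theorem kp_comm (hc : ∀ i j, br (π i) (π j) = 0) {z : Pol k m} (hz : z ∈ Kp π) (i : Fin (d + 1)) :
    br (π i) z = 0 := by
  have h1 : Kp π ≤ Cen (Set.range π) := by
    apply Algebra.adjoin_le
    rintro _ ⟨j, rfl⟩ _ ⟨l, rfl⟩
    exact hc j l
  have h2 := h1 hz (π i) ⟨i, rfl⟩
  rw [br_anti, h2, neg_zero]

theorem kp_le (h : MnP W K f (d + 1) π ψ a c0) {z : Pol k m} (hz : z ∈ Kp π) : z ∈ Cf K f := by
  have h1 : Kp π ≤ Cf K f := by
    apply Algebra.adjoin_le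
    rintro _ ⟨j, rfl⟩
    exact h.hp j
  exact h1 hz

theorem pi_kp (i : Fin (d + 1)) : π i ∈ Kp π := Algebra.subset_adjoin ⟨i, rfl⟩

theorem C_kp (c : k) : (C c : Pol k m) ∈ Kp π := Subalgebra.algebraMap_mem _ c

theorem prodpow_kp (s : Finset (Fin (d + 1))) (e : Fin (d + 1) → ℕ) : ∏ i ∈ s, π i ^ e i ∈ Kp π :=
  Subalgebra.prod_mem _ fun i _ => Subalgebra.pow_mem _ (pi_kp i) _

theorem prodpow_wt (h : Gr W) (hw : ∀ i, π i ∈ W (ψ i)) (s : Finset (Fin (d + 1))) (e : Fin (d + 1) → ℕ) :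
    ∏ i ∈ s, π i ^ e i ∈ W (∑ i ∈ s, e i • ψ i) :=
  prod_mem_gr h s _ _ fun i _ => pow_mem_gr h (hw i) _

theorem C_wt (h : Gr W) (c : k) : (C c : Pol k m) ∈ W 0 := algebraMap_mem_gr h c

/-- `f / π l` -/
noncomputable def fl (π : Fin (d + 1) → Pol k m) (a : Fin (d + 1) → ℕ) (c0 : k) (l : Fin (d + 1)) : Pol k m :=
  C c0 * (π l ^ (a l - 1) * ∏ j ∈ Finset.univ.erase l, π j ^ a j)

theorem fl_mul (h : MnP W K f (d + 1) π ψ a c0) (l : Fin (d + 1)) : π l * fl π a c0 l = f := by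
  unfold fl
  have h1 : π l ^ a l = π l * π l ^ (a l - 1) := by
    rw [← pow_succ', Nat.sub_add_cancel (h.ap l)]
  rw [h.fe, ← Finset.mul_prod_erase Finset.univ (fun i => π i ^ a i) (Finset.mem_univ l), h1]
  ring

theorem fl_kp (l : Fin (d + 1)) : fl π a c0 l ∈ Kp π :=
  Subalgebra.mul_mem _ (C_kp c0) (Subalgebra.mul_mem _ (Subalgebra.pow_mem _ (pi_kp l) _) (prodpow_kp _ _))

theorem sum_nat (e : Fin (d + 1) → ℕ) : ∑ i, e i • ψ i = ∑ i, (e i : ℤ) • ψ i :=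
  Finset.sum_congr rfl fun i _ => (natCast_zsmul _ _).symm

theorem fl_wt (hg : Gr W) (h : MnP W K f (d + 1) π ψ a c0) (l : Fin (d + 1)) : fl π a c0 l ∈ W (-ψ l) := by
  have h1 : fl π a c0 l ∈ W (0 + ((a l - 1) • ψ l + ∑ j ∈ Finset.univ.erase l, a j • ψ j)) :=
    mul_mem_gr hg (C_wt hg c0) (mul_mem_gr hg (pow_mem_gr hg (h.wp l) _) (prodpow_wt hg h.wp _ _))
  have h2 : (0 : Fin d → ℤ) + ((a l - 1) • ψ l + ∑ j ∈ Finset.univ.erase l, a j • ψ j) = -ψ l := by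
    have h3 : a l • ψ l = (a l - 1) • ψ l + ψ l := by
      rw [← succ_nsmul, Nat.sub_add_cancel (h.ap l)]
    have h4 := h.ra
    rw [← sum_nat, ← Finset.add_sum_erase Finset.univ (fun i => a i • ψ i) (Finset.mem_univ l), h3] at h4
    rw [zero_add, eq_neg_iff_add_eq_zero, ← h4]
    abel
  rwa [h2] at h1

theorem not_dvd (h : MnP W K f (d + 1) π ψ a c0) {c : k} (hc : c ≠ 0) (hp : Prime (f - C c)) (l : Fin (d + 1)) :
    ¬ (f - C c) ∣ π l := by
  intro hd
  have h1 : π l ∣ f - C c := (hp.associated_of_dvd (h.pp l) hd).symm.dvd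
  have h2 : π l ∣ f := ⟨_, (fl_mul h l).symm⟩
  have h3 : π l ∣ C c := by
    have h4 := dvd_sub h2 h1
    rwa [sub_sub_cancel] at h4
  have h5 : IsUnit (C c : Pol k m) := (isUnit_iff_ne_zero.2 hc).map C
  exact (h.pp l).not_unit (isUnit_of_dvd_unit h3 h5)

end basics

theorem pf_RFC (hPPC : T_PPC) (hDUA : T_DUA) (hGBR : T_GBR) (hPHR : T_PHR) (hFCP : T_FCP) (hCKF : T_CKF)
    (_hCFC : T_CFC) (hCOC : T_COC) : T_RFC := by
  classical
  intro k _ _ _ m d W K H f π ψ a c0 hM χ s c hV hc hdvd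
  have hMn : MnP W K f (d + 1) π ψ a c0 := hM.toMnP
  have hFd : Fd W K H f := hM.toFd
  have hGr : Gr W := hM.toGr
  have hcomm := hPPC k m d W K H f π ψ a c0 hM
  obtain ⟨hsK, hsW, hsπ, hsf⟩ := hV
  obtain ⟨b, hb1, hb2⟩ := hDUA k m d W K H f π ψ a c0 hM 0
  have hprime := hFCP k m d W K H f π ψ a c0 hM c hc
  obtain ⟨-, hφadd, -, hφ0, -⟩ := hPHR k m d W K H f π ψ a c0 hM
  set p : Pol k m := f - C c with hp
  -- the Hamiltonians
  set G : Fin (d + 1) → Pol k m := fun l => Gb H (b l) with hG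
  have hGb := fun l => hGBR k m d W K H f hM.toDat (b l)
  have hGK : ∀ l, G l ∈ K := fun l => (hGb l).1
  have hG0 : ∀ l, G l ∈ W 0 := fun l => (hGb l).2.1
  have hπK : ∀ i, π i ∈ K := fun i => (mem_Cf.1 (hMn.hp i)).1
  have hGπ : ∀ i l, br (π i) (G l) = -((∑ t, b l t * ((ψ i t : ℤ) : k)) • π i) := by
    intro i l
    rw [br_anti, (hGb l).2.2.2 (ψ i) (π i) (hπK i) (hMn.wp i)]
  have hGf : ∀ l, br f (G l) = 0 := by
    intro l
    rw [br_anti, (hGb l).2.2.2 0 f hM.fK hM.f0]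
    simp
  have hGCf : ∀ l, G l ∈ Cf K f := fun l => mem_Cf.2 ⟨hGK l, hGf l⟩
  -- the corrections
  set ε : Fin (d + 1) → Pol k m := fun l => C c⁻¹ * (fl π a c0 l * br (π l) s) with hε
  have hεK : ∀ l, ε l ∈ Kp π := fun l =>
    Subalgebra.mul_mem _ (C_kp _) (Subalgebra.mul_mem _ (fl_kp l) (hsπ l))
  have hεW : ∀ l, ε l ∈ W χ := by
    intro l
    have h1 := mul_mem_gr hGr (C_wt hGr c⁻¹) (mul_mem_gr hGr (fl_wt hGr hMn l)
      (hM.pbr (ψ l) χ (π l) s (hMn.wp l) hsW))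
    have h2 : (0 : Fin d → ℤ) + (-ψ l + (ψ l + χ)) = χ := by abel
    rwa [h2] at h1
  have hεπ : ∀ l, π l * ε l = C c⁻¹ * (f * br (π l) s) := by
    intro l
    calc π l * ε l = C c⁻¹ * ((π l * fl π a c0 l) * br (π l) s) := by rw [hε]; ring
      _ = _ := by rw [fl_mul hMn]
  set T : Pol k m := ∑ l ∈ Finset.univ.erase 0, ε l * G l with hT
  have hTCf : T ∈ Cf K f := Subalgebra.sum_mem _ fun l _ =>
    Subalgebra.mul_mem _ (kp_le hMn (hεK l)) (hGCf l)
  have hTW : T ∈ W χ := Submodule.sum_mem _ fun l _ => by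
    have h1 := mul_mem_gr hGr (hεW l) (hG0 l)
    rwa [add_zero] at h1
  have hTbr : ∀ i, br (π i) T = ∑ l ∈ Finset.univ.erase 0, ε l * br (π i) (G l) := by
    intro i
    rw [hT, br_sum]
    refine Finset.sum_congr rfl fun l _ => ?_
    rw [br_mul, kp_comm hcomm (hεK l) i, mul_zero, add_zero]
  have hTi : ∀ i, i ≠ 0 → br (π i) T = -(π i * ε i) := by
    intro i hi
    rw [hTbr, Finset.sum_eq_single i]
    · rw [hGπ, hb1 i i hi hi, if_pos rfl, one_smul]
      ring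
    · intro l hl hli
      rw [hGπ, hb1 l i (Finset.ne_of_mem_erase hl) hi, if_neg hli, zero_smul, neg_zero, mul_zero]
    · intro h
      exact absurd (Finset.mem_erase.2 ⟨hi, Finset.mem_univ i⟩) h
  have ha0 : ((a 0 : ℕ) : k) ≠ 0 := by exact_mod_cast (hMn.ap 0).ne'
  have hT0 : C ((a 0 : ℕ) : k) * br (π 0) T =
      ∑ l ∈ Finset.univ.erase 0, C ((a l : ℕ) : k) * (π 0 * ε l) := by
    rw [hTbr, Finset.mul_sum]
    refine Finset.sum_congr rfl fun l hl => ?_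
    rw [hGπ, hb2 l (Finset.ne_of_mem_erase hl), neg_smul, neg_neg, smul_eq_C_mul]
    have h1 : C ((a l : ℕ) : k) = C ((a 0 : ℕ) : k) * (C (((a l : ℕ) : k) / ((a 0 : ℕ) : k)) : Pol k m) := by
      rw [← C_mul, mul_div_cancel₀ _ ha0]
    rw [h1]
    ring
  -- brackets of `s + T`
  have hCc : (C c⁻¹ * C c : Pol k m) = 1 := by
    rw [← C_mul, inv_mul_cancel₀ hc, C_1]
  have hi_dvd : ∀ i, i ≠ 0 → p ∣ br (π i) (s + T) := by
    intro i hi
    refine ⟨-(C c⁻¹ * br (π i) s), ?_⟩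
    rw [br_add, hTi i hi, hεπ, hp]
    linear_combination (-(br (π i) s)) * hCc
  have hall : ∀ i, (∏ j ∈ Finset.univ.erase i, π j) * π i = ∏ j, π j := fun i =>
    Finset.prod_erase_mul _ _ (Finset.mem_univ i)
  have h0_dvd : p ∣ br (π 0) (s + T) := by
    have h1 : p ∣ C ((a 0 : ℕ) : k) * ((∏ j ∈ Finset.univ.erase 0, π j) * br (π 0) (s + T)) := by
      have h2 : C ((a 0 : ℕ) : k) * ((∏ j ∈ Finset.univ.erase 0, π j) * br (π 0) (s + T)) =
          phi π a s + ∑ l ∈ Finset.univ.erase 0, p * (C c⁻¹ * (C ((a l : ℕ) : k) *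
            (∏ j ∈ Finset.univ.erase l, π j) * br (π l) s)) := by
        have h3 : phi π a s = C ((a 0 : ℕ) : k) * (∏ j ∈ Finset.univ.erase 0, π j) * br (π 0) s +
            ∑ l ∈ Finset.univ.erase 0, C ((a l : ℕ) : k) * (∏ j ∈ Finset.univ.erase l, π j) * br (π l) s := by
          unfold phi
          exact (Finset.add_sum_erase Finset.univ _ (Finset.mem_univ 0)).symm
        rw [h3, add_assoc, ← Finset.sum_add_distrib, br_add]
        have h4 : C ((a 0 : ℕ) : k) * ((∏ j ∈ Finset.univ.erase 0, π j) * (br (π 0) s + br (π 0) T)) =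
            C ((a 0 : ℕ) : k) * (∏ j ∈ Finset.univ.erase 0, π j) * br (π 0) s +
            (∏ j ∈ Finset.univ.erase 0, π j) * (C ((a 0 : ℕ) : k) * br (π 0) T) := by ring
        rw [h4, hT0, Finset.mul_sum]
        congr 1
        refine Finset.sum_congr rfl fun l _ => ?_
        have h5 : (∏ j ∈ Finset.univ.erase 0, π j) * (C ((a l : ℕ) : k) * (π 0 * ε l)) =
            C ((a l : ℕ) : k) * (∏ j ∈ Finset.univ.erase l, π j) * (π l * ε l) := by
          calc (∏ j ∈ Finset.univ.erase 0, π j) * (C ((a l : ℕ) : k) * (π 0 * ε l))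
              = C ((a l : ℕ) : k) * (((∏ j ∈ Finset.univ.erase 0, π j) * π 0) * ε l) := by ring
            _ = C ((a l : ℕ) : k) * (((∏ j ∈ Finset.univ.erase l, π j) * π l) * ε l) := by rw [hall, hall]
            _ = _ := by ring
        rw [h5, hεπ, hp]
        linear_combination (C ((a l : ℕ) : k) * (∏ j ∈ Finset.univ.erase l, π j) * br (π l) s) * hCc
      rw [h2]
      exact dvd_add hdvd (Finset.dvd_sum fun l _ => dvd_mul_right _ _)
    rcases hprime.dvd_or_dvd h1 with h2 | h2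
    · exfalso
      exact hprime.not_unit (isUnit_of_dvd_unit h2 ((isUnit_iff_ne_zero.2 ha0).map C))
    · rcases hprime.dvd_or_dvd h2 with h3 | h3
      · exfalso
        obtain ⟨l, -, hl⟩ := (hprime.dvd_finset_prod_iff _).1 h3
        exact not_dvd hMn hc hprime l hl
      · exact h3
  have hdv : ∀ i, p ∣ br (π i) (s + T) := by
    intro i
    by_cases hi : i = 0
    · rw [hi]
      exact h0_dvd
    · exact hi_dvd i hi
  -- the weight
  have hs0 : s ≠ 0 := by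
    rintro rfl
    exact hsf (br_zero f)
  obtain ⟨g, hgC, hgW, hg0⟩ := hCOC k m d W K H f hFd (-χ) (hM.ng χ ⟨s, hsK, hsW, hs0⟩)
  obtain ⟨y0, hy0C, hy0W, e, hge⟩ := hMn.mo' (-χ) g hgC hgW hg0
  have hχ : -χ = ∑ i, e i • ψ i := by
    have h1 : g ∈ W (0 + ∑ i, e i • ψ i) := by
      rw [hge]
      exact mul_mem_gr hGr hy0W (prodpow_wt hGr hMn.wp _ _)
    rw [zero_add] at h1
    exact wt_uniq hGr hgW h1 hg0
  set y : Pol k m := (s + T) * ∏ i, π i ^ e i with hy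
  have hsTK : s + T ∈ K := Subalgebra.add_mem _ hsK (mem_Cf.1 hTCf).1
  have hprK : ∀ n : Fin (d + 1) → ℕ, ∏ i, π i ^ n i ∈ K := fun n =>
    (mem_Cf.1 (kp_le hMn (prodpow_kp Finset.univ n))).1
  have hyK : y ∈ K := Subalgebra.mul_mem _ hsTK (hprK e)
  have hyW : y ∈ W 0 := by
    have h1 := mul_mem_gr hGr ((W χ).add_mem hsW hTW) (prodpow_wt hGr hMn.wp Finset.univ e)
    rwa [← hχ, add_neg_cancel] at h1
  obtain ⟨c', hc'⟩ := hCKF k m d W K H f π ψ a c0 hM c y hc hyK hyW (by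
    intro j
    rw [hy, br_mul, kp_comm hcomm (prodpow_kp Finset.univ e) j, mul_zero, zero_add]
    exact Dvd.dvd.mul_left (hdv j) _)
  -- the constant
  set M : ℕ := ∑ i, e i with hMd
  set n : Fin (d + 1) → ℕ := fun i => M * a i - e i with hn
  have hle : ∀ i, e i ≤ M * a i := by
    intro i
    have h1 : e i ≤ M := Finset.single_le_sum (fun j _ => Nat.zero_le (e j)) (Finset.mem_univ i)
    have h2 : M * 1 ≤ M * a i := Nat.mul_le_mul_left M (hMn.ap i)
    omega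
  have hprod : (∏ i, π i ^ e i) * (∏ i, π i ^ n i) = (∏ i, π i ^ a i) ^ M := by
    rw [← Finset.prod_mul_distrib, ← Finset.prod_pow]
    refine Finset.prod_congr rfl fun i _ => ?_
    rw [← pow_add, ← pow_mul, hn]
    congr 1
    have := hle i
    change e i + (M * a i - e i) = a i * M
    rw [mul_comm (a i) M]
    omega
  have hnW : ∏ i, π i ^ n i ∈ W χ := by
    have h1 := prodpow_wt hGr hMn.wp Finset.univ n
    have h2 : ∑ i, n i • ψ i = χ := by
      have h3 : ∑ i, n i • ψ i + ∑ i, e i • ψ i = 0 := by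
        rw [← Finset.sum_add_distrib]
        have h4 : ∀ i, n i • ψ i + e i • ψ i = (M : ℤ) • ((a i : ℤ) • ψ i) := by
          intro i
          rw [← add_smul, hn]
          have h5 : M * a i - e i + e i = M * a i := Nat.sub_add_cancel (hle i)
          change (M * a i - e i + e i) • ψ i = _
          rw [h5, ← natCast_zsmul, Nat.cast_mul, mul_smul]
        rw [Finset.sum_congr rfl fun i _ => h4 i, ← Finset.smul_sum, hMn.ra, smul_zero]
      rw [← hχ] at h3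
      exact add_neg_eq_zero.1 h3
    rwa [h2] at h1
  set c'' : k := c0 ^ M * c' * (c⁻¹) ^ M with hc''
  have hfin : p ∣ (s + T) - C c'' * ∏ i, π i ^ n i := by
    have h1 : p ∣ f ^ M - (C c : Pol k m) ^ M := sub_dvd_pow_sub_pow f (C c) M
    have h2 : f ^ M = C (c0 ^ M) * (∏ i, π i ^ a i) ^ M := by
      rw [hMn.fe, mul_pow, C_pow]
    have h3 : (C (c⁻¹) ^ M * C c ^ M : Pol k m) = 1 := by
      rw [← mul_pow, hCc, one_pow]
    have h4 : (s + T) - C c'' * ∏ i, π i ^ n i =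
        C (c⁻¹) ^ M * (C (c0 ^ M) * (∏ i, π i ^ n i) * (y - C c') - (s + T) * (f ^ M - (C c : Pol k m) ^ M)) := by
      rw [hc'', C_mul, C_mul, C_pow (c⁻¹) M, h2, ← hprod, hy]
      linear_combination (-(s + T)) * h3
    rw [h4]
    exact Dvd.dvd.mul_left (dvd_sub (Dvd.dvd.mul_left hc' _) (Dvd.dvd.mul_left h1 _)) _
  set s' : Pol k m := (s + T) - C c'' * ∏ i, π i ^ n i with hs'
  have hdiff : s' = s + (T - C c'' * ∏ i, π i ^ n i) := by rw [hs']; ring
  have hlast : C c'' * ∏ i, π i ^ n i ∈ Kp π := Subalgebra.mul_mem _ (C_kp _) (prodpow_kp _ _)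
  have hdC : T - C c'' * ∏ i, π i ^ n i ∈ Cf K f := Subalgebra.sub_mem _ hTCf (kp_le hMn hlast)
  refine ⟨s', ⟨?_, ?_, ?_, ?_⟩, ?_, hfin⟩
  · rw [hdiff]
    exact Subalgebra.add_mem _ hsK (mem_Cf.1 hdC).1
  · rw [hs']
    refine (W χ).sub_mem ((W χ).add_mem hsW hTW) ?_
    have h1 := mul_mem_gr hGr (C_wt hGr c'') hnW
    rwa [zero_add] at h1
  · intro i
    rw [hdiff, br_add, br_sub, kp_comm hcomm hlast i, sub_zero, hTbr]
    refine Subalgebra.add_mem _ (hsπ i) (Subalgebra.sum_mem _ fun l _ => ?_)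
    rw [hGπ]
    exact Subalgebra.mul_mem _ (hεK l) (Subalgebra.neg_mem _ (Subalgebra.smul_mem _ (pi_kp i) _))
  · rw [hdiff, br_add, (mem_Cf.1 hdC).2, add_zero]
    exact hsf
  · rw [hdiff, hφadd, hφ0 _ hdC, add_zero]

end Pool.Agent.H10.TGA
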